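import Pool.Agent.H70.EH.Targets

/-!
Module FOX (MP_0f8dca_lc, board eh_modules of helper70): the two-query circuit.
Adapted from Pool/Agent/H3/NB/FOR.lean.
-/

set_option autoImplicit false

namespace Pool.Agent.H64.EH

open Finset Pool.Agent.H6.NB Pool.Agent.H70.EH
open scoped Matrix

theorem phase_eq (O : List Bool → Bool) (s u : List Bool)
    (z : (Fin (qs s) → Bool) × Bool) :
    (run s u).phase O z = ((sg (cpx O s u (z.2, z.1)) : ℝ) : ℂ) := by
  change (if O (pos s u (List.ofFn z.1) z.2) then (-1 : ℂ) else 1) = _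
  unfold sg cpx
  by_cases h : O (pos s u (List.ofFn z.1) z.2) = true
  · simp [h]
  · simp [h]

/-- the zero string -/
def zr (q : ℕ) : Fin q → Bool := fun _ => false

theorem hd_zr (q : ℕ) (a : Fin q → Bool) : hd q (zr q) a = 1 / √(2 ^ q) := by
  simp [hd, zr]

theorem hd_zr' (q : ℕ) (a : Fin q → Bool) : hd q a (zr q) = 1 / √(2 ^ q) := by
  rw [hd_comm, hd_zr]

theorem hadI_mulVec (q : ℕ) (v : (Fin q → Bool) × Bool → ℂ) (z : (Fin q → Bool) × Bool) :
    (hadI q *ᵥ v) z = ∑ x, (hd q z.1 x : ℂ) * v (x, z.2) := by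
  simp only [Matrix.mulVec, dotProduct]
  rw [Fintype.sum_prod_type]
  refine Finset.sum_congr rfl fun x _ => ?_
  rw [Fintype.sum_bool]
  obtain ⟨a, b⟩ := z
  cases b <;> simp [hadI]

theorem hadX_mulVec (q : ℕ) (v : (Fin q → Bool) × Bool → ℂ) (z : (Fin q → Bool) × Bool) :
    (hadX q *ᵥ v) z = ∑ x, (hd q z.1 x : ℂ) * v (x, !z.2) := by
  simp only [Matrix.mulVec, dotProduct]
  rw [Fintype.sum_prod_type]
  refine Finset.sum_congr rfl fun x _ => ?_
  rw [Fintype.sum_bool]
  obtain ⟨a, b⟩ := z
  cases b <;> simp [hadX]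

theorem fox : T_FOX := by
  intro O s u
  set q := qs s with hq
  set Q := run s u with hQ
  have s0 : ∀ z : (Fin q → Bool) × Bool, Q.state O 0 z =
      if z.2 = false then (hd q z.1 (zr q) : ℂ) else 0 := by
    intro z
    change (hadI q *ᵥ (Pi.single ((fun _ => false, false) : (Fin q → Bool) × Bool) (1 : ℂ))) z = _
    rw [hadI_mulVec]
    rw [Finset.sum_eq_single (zr q)]
    · obtain ⟨a, b⟩ := z
      cases b
      · have : (Pi.single ((fun _ => false, false) : (Fin q → Bool) × Bool) (1 : ℂ)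
            : (Fin q → Bool) × Bool → ℂ) (zr q, false) = 1 := Pi.single_eq_same _ _
        simp only [this, if_true, mul_one]
      · have : (Pi.single ((fun _ => false, false) : (Fin q → Bool) × Bool) (1 : ℂ)
            : (Fin q → Bool) × Bool → ℂ) (zr q, true) = 0 := by
          rw [Pi.single_eq_of_ne]
          intro h
          simpa using congrArg Prod.snd h
        simp only [this, mul_zero]
        simp
    · intro b _ hb
      rw [Pi.single_eq_of_ne, mul_zero]
      intro h
      exact hb (congrArg Prod.fst h)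
    · intro h
      exact absurd (Finset.mem_univ _) h
  have s1 : ∀ z : (Fin q → Bool) × Bool, Q.state O 1 z =
      if z.2 = false then 0 else
        ∑ x, (hd q z.1 x : ℂ) * (((sg (cpx O s u (false, x)) : ℝ) : ℂ) * (hd q x (zr q) : ℂ)) := by
    intro z
    change (hadX q *ᵥ fun j => Q.phase O j * Q.state O 0 j) z = _
    rw [hadX_mulVec]
    obtain ⟨a, b⟩ := z
    cases b
    · simp only [Bool.not_false, if_true]
      refine Finset.sum_eq_zero fun x _ => ?_
      rw [s0]
      simp
    · simp only [Bool.not_true, Bool.true_eq_false, if_false]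
      refine Finset.sum_congr rfl fun x _ => ?_
      rw [s0, phase_eq]
      simp
  have s2 : ∀ z : (Fin q → Bool) × Bool, Q.state O 2 z =
      if z.2 = false then 0 else ∑ y, (hd q z.1 y : ℂ) * (((sg (cpx O s u (true, y)) : ℝ) : ℂ) *
        ∑ x, (hd q y x : ℂ) * (((sg (cpx O s u (false, x)) : ℝ) : ℂ) * (hd q x (zr q) : ℂ))) := by
    intro z
    change (hadI q *ᵥ fun j => Q.phase O j * Q.state O 1 j) z = _
    rw [hadI_mulVec]
    obtain ⟨a, b⟩ := z
    cases b
    · simp only [if_true]
      refine Finset.sum_eq_zero fun x _ => ?_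
      rw [s1]
      simp
    · simp only [Bool.true_eq_false, if_false]
      refine Finset.sum_congr rfl fun x _ => ?_
      rw [s1, phase_eq]
      simp
  have hval : (∑ y, (hd q (zr q) y : ℂ) * (((sg (cpx O s u (true, y)) : ℝ) : ℂ) *
        ∑ x, (hd q y x : ℂ) * (((sg (cpx O s u (false, x)) : ℝ) : ℂ) * (hd q x (zr q) : ℂ)))) =
      ((phi q (cpx O s u) : ℝ) : ℂ) := by
    unfold phi
    push_cast
    have h0 : (0 : ℝ) < 2 ^ q := by positivity
    have hs : ((√(2 ^ q) : ℝ) : ℂ) * ((√(2 ^ q) : ℝ) : ℂ) = 2 ^ q := by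
      rw [← Complex.ofReal_mul, Real.mul_self_sqrt h0.le]
      push_cast
      rfl
    have hs0 : ((√(2 ^ q) : ℝ) : ℂ) ≠ 0 := by
      exact_mod_cast (Real.sqrt_pos.2 h0).ne'
    rw [Finset.sum_comm, Finset.sum_div]
    refine Finset.sum_congr rfl fun y _ => ?_
    rw [Finset.mul_sum, Finset.mul_sum, Finset.sum_div]
    refine Finset.sum_congr rfl fun x _ => ?_
    rw [hd_zr, hd_zr', hd_comm q y x, ← hs]
    push_cast
    field_simp
  have hacc : Finset.univ.filter (fun z : (Fin q → Bool) × Bool => z.1 = fun _ => false) =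
      {((zr q, false) : (Fin q → Bool) × Bool), (zr q, true)} := by
    ext z
    rw [Finset.mem_filter, Finset.mem_insert, Finset.mem_singleton]
    obtain ⟨a, b⟩ := z
    have e : (a = fun _ => false) ↔ a = zr q := Iff.rfl
    cases b <;> simp [e]
  change ∑ z ∈ Finset.univ.filter (fun z : (Fin q → Bool) × Bool => z.1 = fun _ => false),
    ‖Q.state O 2 z‖ ^ 2 = _
  rw [hacc, Finset.sum_pair (by simp), s2, s2]
  simp only [if_true, Bool.true_eq_false, if_false]
  rw [hval, norm_zero, Complex.norm_real, Real.norm_eq_abs, sq_abs]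
  ring

end Pool.Agent.H64.EH
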